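import Pool.Agent.Lib.helper18.Brouwer

set_option autoImplicit false

namespace Pool.Agent.H.MP_f478ee_an
open Filter Topology

theorem br {W : Type} [TopologicalSpace W] [CompactSpace W] [Nonempty W] (j : W → ℕ → Bool)
    (hj : Continuous j) (hi : Function.Injective j) (hp : ∀ w : W, ∀ U ∈ 𝓝 w, ∃ v ∈ U, v ≠ w) :
    Nonempty (W ≃ₜ (ℕ → Bool)) := by
  let f : W → ℝ := fun w => (cantorSetHomeomorphNatToBool.symm (j w) : ℝ)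
  have hf : Continuous f :=
    continuous_subtype_val.comp (cantorSetHomeomorphNatToBool.symm.continuous.comp hj)
  have hfi : Function.Injective f :=
    Subtype.val_injective.comp (cantorSetHomeomorphNatToBool.symm.injective.comp hi)
  have he := (hf.isClosedEmbedding hfi).isEmbedding
  have htd : TotallyDisconnectedSpace W :=
    ⟨isTotallyDisconnected_of_image hj.continuousOn hi
      (isTotallyDisconnected_of_totallyDisconnectedSpace _)⟩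
  obtain ⟨e⟩ := Lib.helper18.Brouwer.brouwer (E := Set.range f)
    ⟨⟨(isCompact_range hf).isClosed, preperfect_iff_nhds.2 (by
        rintro _ ⟨w, rfl⟩ U hU
        obtain ⟨w', h1, h2⟩ := hp w _ (hf.continuousAt.preimage_mem_nhds hU)
        exact ⟨f w', ⟨h1, w', rfl⟩, hfi.ne h2⟩)⟩,
      Set.range_nonempty f, isCompact_range hf, by
        by_contra h
        obtain ⟨x, hx⟩ := Set.nonempty_iff_ne_empty.2 h
        obtain ⟨a, b, h1, h2⟩ := mem_nhds_iff_exists_Ioo_subset.1 (mem_interior_iff_mem_nhds.1 hx)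
        have h3 := he.isTotallyDisconnected_range.2 htd _ h2 isPreconnected_Ioo
        exact (Set.Ioo_infinite (h1.1.trans h1.2)).not_finite h3.finite⟩
  exact ⟨he.toHomeomorph.trans e⟩

variable {Γ : Type} [Group Γ]

structure Model (Γ : Type) [Group Γ] where
  act : Γ → (ℕ → Bool) → (ℕ → Bool)
  Rep : (ℕ → Bool) → Ultrafilter Γ → Prop
  cont : ∀ g, Continuous (act g)
  one : ∀ x, act 1 x = x
  mul : ∀ (g h : Γ) (x : ℕ → Bool), act (g * h) x = act g (act h x)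
  ex : ∀ z, ∃ u, Rep z u
  eqv : ∀ z u g, Rep z u → Rep (act g z) (u.map fun γ => γ * g⁻¹)

def Model.Good (M : Model Γ) (A : Set Γ) : Prop :=
  ∃ U, IsOpen U ∧ ∀ z u, M.Rep z u → (z ∈ U ↔ A ∈ u)

theorem model_ex [Countable Γ] (a : ℕ → Set Γ) : ∃ M : Model Γ, ∀ n, M.Good (a n) := by
  classical
  let Φ : Ultrafilter Γ → ℕ × Γ → Bool := fun u p => decide ({γ | γ * p.2⁻¹ ∈ a p.1} ∈ u)
  have hΦ : Continuous Φ := by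
    refine continuous_pi fun p => continuous_discrete_rng.2 fun b => ?_
    cases b
    · have : (fun u => Φ u p) ⁻¹' {false} = {u | {γ | γ * p.2⁻¹ ∈ a p.1} ∈ u}ᶜ := by
        ext u; simp [Φ]
      rw [this]
      exact (ultrafilter_isClosed_basic _).isOpen_compl
    · have : (fun u => Φ u p) ⁻¹' {true} = {u | {γ | γ * p.2⁻¹ ∈ a p.1} ∈ u} := by
        ext u; simp [Φ]
      rw [this]
      exact ultrafilter_isOpen_basic _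
  have : CompactSpace (Set.range Φ) := isCompact_iff_compactSpace.1 (isCompact_range hΦ)
  have : Nonempty (Set.range Φ) := ⟨⟨_, pure 1, rfl⟩⟩
  obtain ⟨ι, hι⟩ := exists_surjective_nat (ℕ × Γ)
  obtain ⟨ψ⟩ := br (W := Set.range Φ × (ℕ → Bool))
    (fun w n => if n % 2 = 0 then w.1.1 (ι (n / 2)) else w.2 (n / 2))
    (continuous_pi fun n => by
      split_ifs
      · exact (continuous_apply _).comp (continuous_subtype_val.comp continuous_fst)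
      · fun_prop)
    (fun w w' h => by
      refine Prod.ext (Subtype.ext (funext fun p => ?_)) (funext fun n => ?_)
      · obtain ⟨n, rfl⟩ := hι p
        simpa using congrFun h (2 * n)
      · have h1 := congrFun h (2 * n + 1)
        have h2 : (2 * n + 1) / 2 = n := by omega
        simpa [h2] using h1)
    (fun w U hU => by
      have h1 : Tendsto (fun n => Function.update w.2 n (!w.2 n)) atTop (𝓝 w.2) := by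
        rw [tendsto_pi_nhds]
        intro m
        refine tendsto_const_nhds.congr' ?_
        filter_upwards [eventually_gt_atTop m] with n hn
        rw [Function.update_of_ne hn.ne]
      obtain ⟨n, hn⟩ := ((tendsto_const_nhds (x := w.1)).prodMk_nhds h1).eventually hU |>.exists
      exact ⟨_, hn, fun h => by simpa using congrFun (congrArg Prod.snd h) n⟩)
  have hs : ∀ u g, (fun p : ℕ × Γ => Φ u (p.1, p.2 * g)) = Φ (u.map fun γ => γ * g⁻¹) := by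
    intro u g
    funext p
    simp only [Φ, Ultrafilter.mem_map, Set.preimage_setOf_eq, mul_inv_rev, mul_assoc]
  let sh : Γ → Set.range Φ → Set.range Φ := fun g x => ⟨fun p => x.1 (p.1, p.2 * g), by
    obtain ⟨u, hu⟩ := x.2
    exact ⟨_, hu ▸ (hs u g).symm⟩⟩
  have hsh : ∀ g, Continuous (sh g) := fun g =>
    Continuous.subtype_mk (f := fun x : Set.range Φ => fun p : ℕ × Γ => x.1 (p.1, p.2 * g))
      (continuous_pi fun p => (continuous_apply (p.1, p.2 * g)).comp continuous_subtype_val) _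
  refine ⟨⟨fun g z => ψ (sh g (ψ.symm z).1, (ψ.symm z).2), fun z u => (ψ.symm z).1.1 = Φ u,
    fun g => by have := hsh g; fun_prop, fun x => ?_, fun g h x => ?_,
    fun z => (ψ.symm z).1.2.imp fun _ => Eq.symm, fun z u g h => ?_⟩, fun n => ?_⟩
  · have : sh 1 (ψ.symm x).1 = (ψ.symm x).1 := Subtype.ext (by simp [sh])
    rw [this]
    exact ψ.apply_symm_apply x
  · rw [ψ.symm_apply_apply]
    congr 2
    exact Subtype.ext (by simp [sh, mul_assoc])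
  · rw [ψ.symm_apply_apply, ← hs, ← h]
  · refine ⟨(fun z => (ψ.symm z).1.1 (n, 1)) ⁻¹' {true},
      (isOpen_discrete _).preimage ((continuous_apply _).comp (continuous_subtype_val.comp
        (continuous_fst.comp ψ.symm.continuous))), fun z u h => ?_⟩
    have h1 : (ψ.symm z).1.1 = Φ u := h
    simp [h1, Φ]

def Model.Sub (M : Model Γ) (H : Set (Γ × (ℕ → Bool))) : Prop :=
  (∀ (g h : Γ) (x : ℕ → Bool), (g, M.act h x) ∈ H → (h, x) ∈ H → (g * h, x) ∈ H) ∧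
    (∀ (g : Γ) (x : ℕ → Bool), (g, x) ∈ H → (g⁻¹, M.act g x) ∈ H)

def Op (H : Set (Γ × (ℕ → Bool))) : Prop := ∀ g : Γ, IsOpen {x : ℕ → Bool | (g, x) ∈ H}

def Model.gen (M : Model Γ) (K : Set (Γ × (ℕ → Bool))) : Set (Γ × (ℕ → Bool)) :=
  ⋂₀ {S | M.Sub S ∧ K ⊆ S}

theorem Model.gen_sub (M : Model Γ) (K : Set (Γ × (ℕ → Bool))) : M.Sub (M.gen K) :=
  ⟨fun g h x h1 h2 S hS => hS.1.1 g h x (h1 S hS) (h2 S hS), fun g x h1 S hS => hS.1.2 g x (h1 S hS)⟩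

theorem Model.gen_op (M : Model Γ) {K : Set (Γ × (ℕ → Bool))} (hK : Op K) : Op (M.gen K) := by
  intro g
  rw [isOpen_iff_mem_nhds]
  intro x hx
  refine hx {p | {y | (p.1, y) ∈ M.gen K} ∈ 𝓝 p.2} ⟨⟨fun g h x h1 h2 => ?_, fun g x h1 => ?_⟩,
    fun p hp => mem_of_superset ((hK p.1).mem_nhds hp) fun y hy S hS => hS.2 hy⟩
  · exact mem_of_superset (inter_mem ((M.cont h).continuousAt.preimage_mem_nhds h1) h2)
      fun y hy => (M.gen_sub K).1 g h y hy.1 hy.2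
  · have e : ∀ y, M.act g (M.act g⁻¹ y) = y := fun y => by rw [← M.mul, mul_inv_cancel, M.one]
    have h2 : {y | (g, y) ∈ M.gen K} ∈ 𝓝 (M.act g⁻¹ (M.act g x)) := by
      rw [← M.mul, inv_mul_cancel, M.one]; exact h1
    refine mem_of_superset ((M.cont g⁻¹).continuousAt.preimage_mem_nhds h2) fun y hy => ?_
    have h3 := (M.gen_sub K).2 g _ hy
    rwa [e] at h3

def AA (𝒴 : Set (Set Γ)) (g : Γ) : Set Γ := {γ | ∃ Y ∈ 𝒴, γ ∈ Y ∧ γ * g⁻¹ ∈ Y}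

def Model.HH (M : Model Γ) (𝒴 : Set (Set Γ)) : Set (Γ × (ℕ → Bool)) :=
  {p | ∀ u, M.Rep p.2 u → AA 𝒴 p.1 ∈ u}

theorem same {𝒴 : Set (Set Γ)} (h : 𝒴.PairwiseDisjoint id) {Y Y' : Set Γ} (h1 : Y ∈ 𝒴)
    (h2 : Y' ∈ 𝒴) {x : Γ} (h3 : x ∈ Y) (h4 : x ∈ Y') : Y = Y' :=
  h.elim_set h1 h2 x h3 h4

theorem Model.HH_sub (M : Model Γ) {𝒴 : Set (Set Γ)} (h : 𝒴.PairwiseDisjoint id) :
    M.Sub (M.HH 𝒴) := by
  refine ⟨fun g k x h1 h2 u hu => ?_, fun g x h1 u hu => ?_⟩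
  · have h3 : (fun γ => γ * k⁻¹) ⁻¹' AA 𝒴 g ∈ u := h1 _ (M.eqv x u k hu)
    refine mem_of_superset (inter_mem h3 (h2 u hu)) ?_
    rintro γ ⟨⟨Y, hY, a1, a2⟩, Y', hY', b1, b2⟩
    obtain rfl := same h hY hY' a1 b2
    exact ⟨Y, hY, b1, by rwa [mul_inv_rev, ← mul_assoc]⟩
  · have h2 := M.eqv _ u g⁻¹ hu
    rw [← M.mul, inv_mul_cancel, M.one] at h2
    have h3 : (fun γ => γ * g⁻¹⁻¹) ⁻¹' AA 𝒴 g ∈ u := h1 _ h2
    refine mem_of_superset h3 ?_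
    rintro γ ⟨Y, hY, a1, a2⟩
    exact ⟨Y, hY, by simpa using a2, a1⟩

def Model.Cl (M : Model Γ) (𝒞 : Set (Set (Γ × (ℕ → Bool)))) : Prop :=
  (∀ H, M.Sub H → Op H → Set.Finite {g : Γ | ∃ x : ℕ → Bool, (g, x) ∈ H} → H ∈ 𝒞) ∧
  ∀ H, M.Sub H → Op H → (∀ K : Set (Γ × (ℕ → Bool)), K ⊆ H → Op K →
    Set.Finite {g : Γ | ∃ x : ℕ → Bool, (g, x) ∈ K} →
    ∃ U₀ U₁ : Set (ℕ → Bool), IsOpen U₀ ∧ IsOpen U₁ ∧
      {x : ℕ → Bool | ((1 : Γ), x) ∈ H} ⊆ U₀ ∪ U₁ ∧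
      M.gen {k ∈ K | k.2 ∈ U₀} ∈ 𝒞 ∧ M.gen {k ∈ K | k.2 ∈ U₁} ∈ 𝒞) → H ∈ 𝒞

def CC : Set (Set (Set Γ)) := {𝒴 | 𝒴.PairwiseDisjoint id ∧ ∃ 𝒮 : Set (Set Γ), 𝒮.Countable ∧
  ∀ M : Model Γ, (∀ A ∈ 𝒮, M.Good A) → ∀ 𝒞, M.Cl 𝒞 → ∀ H, M.Sub H → Op H → H ⊆ M.HH 𝒴 → H ∈ 𝒞}

theorem base {ℓ : Γ → ℝ} (h3 : ∀ g, ℓ g⁻¹ = ℓ g) (h5 : ∀ R : ℝ, Set.Finite {g | ℓ g ≤ R})
    (𝒴 : Set (Set Γ)) (hd : 𝒴.PairwiseDisjoint id)
    (hb : ∃ R : ℝ, ∀ Y ∈ 𝒴, ∀ a ∈ Y, ∀ b ∈ Y, ℓ (a⁻¹ * b) ≤ R) : 𝒴 ∈ CC := by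
  obtain ⟨R, hR⟩ := hb
  refine ⟨hd, ∅, Set.countable_empty, fun M _ 𝒞 hC H h1 h2 h => hC.1 H h1 h2 ((h5 R).subset ?_)⟩
  rintro g ⟨x, hx⟩
  obtain ⟨u, hu⟩ := M.ex x
  obtain ⟨γ, Y, hY, a1, a2⟩ := Ultrafilter.nonempty_of_mem (h hx u hu)
  have := hR Y hY _ a1 _ a2
  rwa [inv_mul_cancel_left, h3] at this

theorem piece (M : Model Γ) {ℓ : Γ → ℝ} (h1 : ℓ 1 = 0) {r : ℝ} (hr : 0 < r) {𝒴 𝒵 : Set (Set Γ)}
    (hd : 𝒴.PairwiseDisjoint id) (hz : 𝒵.PairwiseDisjoint id) (Y₀ : Set Γ → Set Γ)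
    (P : Set Γ → Set (Set Γ)) (hY : ∀ Y ∈ 𝒴, Y₀ Y ⊆ Y) (hP : ∀ Y ∈ 𝒴, ⋃₀ P Y = Y₀ Y)
    (hN : ∀ Y ∈ 𝒴, ∀ A ∈ P Y, {y ∈ Y | ∃ z ∈ A, ℓ (y⁻¹ * z) < r} ∈ 𝒵)
    {K : Set (Γ × (ℕ → Bool))} (hK : K ⊆ M.HH 𝒴) (hl : ∀ k ∈ K, ℓ k.1 < r) {U : Set (ℕ → Bool)}
    (hU : ∀ z u, M.Rep z u → (z ∈ U ↔ (⋃ Y ∈ 𝒴, Y₀ Y) ∈ u)) :
    M.gen {k ∈ K | k.2 ∈ U} ⊆ M.HH 𝒵 := by
  refine Set.sInter_subset_of_mem ⟨M.HH_sub hz, fun k hk u hu => ?_⟩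
  refine mem_of_superset (inter_mem (hK hk.1 u hu) ((hU _ u hu).1 hk.2)) ?_
  rintro γ ⟨⟨Y, hY1, a1, a2⟩, h2⟩
  obtain ⟨Y', hY', h3⟩ := Set.mem_iUnion₂.1 h2
  obtain rfl := same hd hY1 hY' a1 (hY _ hY' h3)
  rw [← hP Y hY1] at h3
  obtain ⟨A, hA, h4⟩ := h3
  refine ⟨_, hN Y hY1 A hA, ⟨a1, γ, h4, ?_⟩, a2, γ, h4, ?_⟩
  · rwa [inv_mul_cancel, h1]
  · simpa using hl k hk.1

theorem step {ℓ : Γ → ℝ} (h1 : ℓ 1 = 0) (𝒴 : Set (Set Γ)) (hd : 𝒴.PairwiseDisjoint id)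
    (h : ∀ r : ℝ, 0 ≤ r → ∃ 𝒵₀ ∈ CC, ∃ 𝒵₁ ∈ CC, ∀ Y ∈ 𝒴, ∃ Y₀ Y₁ : Set Γ, Y = Y₀ ∪ Y₁ ∧
      ∃ P₀ P₁ : Set (Set Γ), ⋃₀ P₀ = Y₀ ∧ ⋃₀ P₁ = Y₁ ∧
        (∀ A ∈ P₀, {y ∈ Y | ∃ z ∈ A, ℓ (y⁻¹ * z) < r} ∈ 𝒵₀) ∧
        (∀ A ∈ P₁, {y ∈ Y | ∃ z ∈ A, ℓ (y⁻¹ * z) < r} ∈ 𝒵₁)) : 𝒴 ∈ CC := by
  choose Z₀ hZ₀ Z₁ hZ₁ hY using fun n : ℕ => h (n + 1) (by positivity)
  choose! Y₀ Y₁ hY P₀ P₁ e₀ e₁ n₀ n₁ using hY
  choose d₀ S₀ c₀ k₀ using hZ₀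
  choose d₁ S₁ c₁ k₁ using hZ₁
  refine ⟨hd, ⋃ n, (S₀ n ∪ S₁ n ∪ {⋃ Y ∈ 𝒴, Y₀ n Y, ⋃ Y ∈ 𝒴, Y₁ n Y}),
    Set.countable_iUnion fun n => ((c₀ n).union (c₁ n)).union (Set.toFinite _).countable,
    fun M hM 𝒞 hC H a1 a2 a3 => hC.2 H a1 a2 fun K b1 b2 b3 => ?_⟩
  obtain ⟨R, hR⟩ := (b3.image ℓ).bddAbove
  obtain ⟨n, hn⟩ := exists_nat_ge R
  have hl : ∀ k ∈ K, ℓ k.1 < n + 1 := fun k hk => by
    have := hR ⟨k.1, ⟨k.2, hk⟩, rfl⟩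
    linarith
  obtain ⟨U₀, o₀, u₀⟩ := hM _ (Set.mem_iUnion.2 ⟨n, Or.inr (Or.inl rfl)⟩)
  obtain ⟨U₁, o₁, u₁⟩ := hM _ (Set.mem_iUnion.2 ⟨n, Or.inr (Or.inr rfl)⟩)
  refine ⟨U₀, U₁, o₀, o₁, fun x hx => ?_, ?_, ?_⟩
  · obtain ⟨u, hu⟩ := M.ex x
    have h2 : (⋃ Y ∈ 𝒴, Y₀ n Y) ∪ (⋃ Y ∈ 𝒴, Y₁ n Y) ∈ u := by
      refine mem_of_superset (a3 hx u hu) ?_
      rintro γ ⟨Y, hY1, h3, _⟩
      rw [hY n Y hY1] at h3
      exact h3.imp (Set.mem_biUnion hY1) (Set.mem_biUnion hY1)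
    exact (Ultrafilter.union_mem_iff.1 h2).imp (u₀ x u hu).2 (u₁ x u hu).2
  · exact k₀ n M (fun A hA => hM A (Set.mem_iUnion.2 ⟨n, Or.inl (Or.inl hA)⟩)) 𝒞 hC _
      (M.gen_sub _) (M.gen_op fun g => (b2 g).inter o₀)
      (piece M h1 (by positivity) hd (d₀ n) (Y₀ n) (P₀ n)
        (fun Y hY1 => Set.subset_union_left.trans (hY n Y hY1).ge) (e₀ n) (n₀ n) (b1.trans a3) hl u₀)
  · exact k₁ n M (fun A hA => hM A (Set.mem_iUnion.2 ⟨n, Or.inl (Or.inr hA)⟩)) 𝒞 hC _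
      (M.gen_sub _) (M.gen_op fun g => (b2 g).inter o₁)
      (piece M h1 (by positivity) hd (d₁ n) (Y₁ n) (P₁ n)
        (fun Y hY1 => Set.subset_union_right.trans (hY n Y hY1).ge) (e₁ n) (n₁ n) (b1.trans a3) hl u₁)

theorem final [Countable Γ] (h : ({Set.univ} : Set (Set Γ)) ∈ CC) :
    ∃ M : Model Γ, ∀ 𝒞, M.Cl 𝒞 → Set.univ ∈ 𝒞 := by
  obtain ⟨_, S, hS, h⟩ := h
  obtain ⟨a, ha⟩ := (hS.insert ∅).exists_eq_range (Set.insert_nonempty _ _)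
  obtain ⟨M, hM⟩ := model_ex a
  refine ⟨M, fun 𝒞 hC => h M (fun A hA => ?_) 𝒞 hC _ ⟨fun _ _ _ _ _ => trivial,
    fun _ _ _ => trivial⟩ (fun g => isOpen_univ) fun p _ u _ =>
      univ_mem' fun γ => ⟨_, rfl, trivial, trivial⟩⟩
  obtain ⟨n, rfl⟩ : A ∈ Set.range a := ha ▸ Set.mem_insert_of_mem _ hA
  exact hM n

end Pool.Agent.H.MP_f478ee_an
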